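import Pool.Agent.H87.BP.Stm

set_option autoImplicit false

/-!
# Position regularity of first integrals: the end of the proof (piece E)
-/

namespace H82.BP

open MeasureTheory Set Metric Filter Topology H82.Bil

open scoped ENNReal

variable {T : Table}

/-! ### one direction -/

lemma shift_le {g : ℂ → ℝ≥0∞} (hg : Measurable g) {x₀ a : ℂ} {r : ℝ} (ha : ‖a‖ ≤ r) :
    ∫⁻ x in ball x₀ r, g (x + a) ≤ ∫⁻ x in ball x₀ (2 * r), g x := by
  rw [← (measurePreserving_add_right (volume : Measure ℂ) a).setLIntegral_comp_preimage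
    measurableSet_ball hg]
  refine lintegral_mono_set fun x hx => ?_
  simp only [mem_preimage]
  rw [mem_ball_iff_norm] at hx ⊢
  have : x + a - x₀ = (x - x₀) + a := by ring
  rw [this]
  exact (norm_add_le _ _).trans_lt (by linarith)

/-- a Lipschitz function whose derivative in the direction `w` vanishes almost everywhere does not
change in this direction -/
lemma perp {F : ℂ → ℝ} (hF : Measurable F) {C : ℝ} {x₀ w : ℂ} {r : ℝ} (hr0 : 0 < r)
    (hw : ‖w‖ = 1)
    (hL : ∀ x ∈ closedBall x₀ (3 * r), ∀ y ∈ closedBall x₀ (3 * r), |F x - F y| ≤ C * ‖x - y‖)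
    (hD : ∀ᵐ x ∂(volume.restrict (ball x₀ (2 * r))),
      HasDerivAt (fun s : ℝ => F (x + s * w)) 0 0)
    {s : ℝ} (hs : |s| ≤ r) : ∀ x ∈ ball x₀ r, F (x + s * w) = F x := by
  rcases eq_or_ne s 0 with rfl | hs0
  · intro x _
    simp
  have hnw : ∀ u : ℝ, ‖(u : ℂ) * w‖ = |u| := fun u => by
    rw [norm_mul, hw, mul_one, Complex.norm_real, Real.norm_eq_abs]
  have hmg : ∀ u : ℝ, Measurable fun x : ℂ => ‖F (x + u * w) - F x‖ₑ := fun u =>
    ((hF.comp (measurable_id.add_const _)).sub hF).enorm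
  have h1 : ∀ N : ℕ, ∫⁻ x in ball x₀ r, ‖F (x + s * w) - F x‖ₑ ≤
      ∫⁻ x in ball x₀ (2 * r), ((N + 1 : ℕ) : ℝ≥0∞) *
        ‖F (x + ((s / ((N + 1 : ℕ) : ℝ) : ℝ) : ℂ) * w) - F x‖ₑ := by
    intro N
    set u : ℝ := s / ((N + 1 : ℕ) : ℝ) with hu
    have hN : (0 : ℝ) < ((N + 1 : ℕ) : ℝ) := by exact_mod_cast Nat.succ_pos N
    have hNu : ((N + 1 : ℕ) : ℝ) * u = s := by rw [hu]; field_simp
    have h2 : ∀ x : ℂ, ‖F (x + s * w) - F x‖ₑ ≤
        ∑ k ∈ Finset.range (N + 1), ‖F (x + ((k : ℝ) * u : ℝ) * w + u * w) -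
          F (x + ((k : ℝ) * u : ℝ) * w)‖ₑ := by
      intro x
      have h3 := Finset.sum_range_sub (fun k : ℕ => F (x + ((k : ℝ) * u : ℝ) * w)) (N + 1)
      rw [hNu] at h3
      have h4 : F (x + ((((0 : ℕ) : ℝ) * u : ℝ) : ℂ) * w) = F x := by simp
      rw [h4] at h3
      rw [← h3]
      refine (enorm_sum_le _ _).trans (le_of_eq (Finset.sum_congr rfl fun k _ => ?_))
      congr 3
      push_cast
      ring
    calc ∫⁻ x in ball x₀ r, ‖F (x + s * w) - F x‖ₑ
        ≤ ∫⁻ x in ball x₀ r, ∑ k ∈ Finset.range (N + 1),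
            ‖F (x + ((k : ℝ) * u : ℝ) * w + u * w) - F (x + ((k : ℝ) * u : ℝ) * w)‖ₑ :=
          lintegral_mono fun x => h2 x
      _ = ∑ k ∈ Finset.range (N + 1), ∫⁻ x in ball x₀ r,
            ‖F (x + ((k : ℝ) * u : ℝ) * w + u * w) - F (x + ((k : ℝ) * u : ℝ) * w)‖ₑ := by
          refine lintegral_finsetSum _ fun k _ => ?_
          exact (hmg u).comp (measurable_id.add_const (((k : ℝ) * u : ℝ) * w))
      _ ≤ ∑ k ∈ Finset.range (N + 1), ∫⁻ x in ball x₀ (2 * r), ‖F (x + u * w) - F x‖ₑ := by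
          refine Finset.sum_le_sum fun k hk => ?_
          refine shift_le (g := fun x => ‖F (x + u * w) - F x‖ₑ) (hmg u) ?_
          rw [hnw, abs_mul, Nat.abs_cast]
          have h5 : (k : ℝ) ≤ ((N + 1 : ℕ) : ℝ) := by
            exact_mod_cast (Finset.mem_range.1 hk).le
          have h6 : ((N + 1 : ℕ) : ℝ) * |u| = |s| := by
            rw [← hNu, abs_mul, Nat.abs_cast]
          have h7 := mul_le_mul_of_nonneg_right h5 (abs_nonneg u)
          linarith
      _ = ∫⁻ x in ball x₀ (2 * r), ((N + 1 : ℕ) : ℝ≥0∞) * ‖F (x + u * w) - F x‖ₑ := by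
          rw [Finset.sum_const, Finset.card_range, nsmul_eq_mul, lintegral_const_mul _ (hmg u)]
  have hsc : ∀ (N : ℕ) (x : ℂ), ((N + 1 : ℕ) : ℝ≥0∞) *
      ‖F (x + ((s / ((N + 1 : ℕ) : ℝ) : ℝ) : ℂ) * w) - F x‖ₑ =
        ENNReal.ofReal (((N + 1 : ℕ) : ℝ) *
          |F (x + ((s / ((N + 1 : ℕ) : ℝ) : ℝ) : ℂ) * w) - F x|) := by
    intro N x
    rw [ENNReal.ofReal_mul (Nat.cast_nonneg _), ENNReal.ofReal_natCast, Real.enorm_eq_ofReal_abs]
  have h2 : Tendsto (fun N : ℕ => ∫⁻ x in ball x₀ (2 * r), ((N + 1 : ℕ) : ℝ≥0∞) *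
      ‖F (x + ((s / ((N + 1 : ℕ) : ℝ) : ℝ) : ℂ) * w) - F x‖ₑ) atTop (𝓝 0) := by
    have h0 : ∫⁻ _ in ball x₀ (2 * r), (0 : ℝ≥0∞) = 0 := by simp
    rw [← h0]
    refine tendsto_lintegral_of_dominated_convergence (fun _ => ENNReal.ofReal (C * |s|)) ?_ ?_ ?_ ?_
    · intro N
      exact (hmg _).const_mul _
    · intro N
      filter_upwards [ae_restrict_mem measurableSet_ball] with x hx
      rw [hsc]
      refine ENNReal.ofReal_le_ofReal ?_
      have hN : (0 : ℝ) < ((N + 1 : ℕ) : ℝ) := by exact_mod_cast Nat.succ_pos N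
      have hN1 : (1 : ℝ) ≤ ((N + 1 : ℕ) : ℝ) := by exact_mod_cast Nat.succ_le_succ (Nat.zero_le N)
      have h3 : |s / ((N + 1 : ℕ) : ℝ)| = |s| / ((N + 1 : ℕ) : ℝ) := by
        rw [abs_div, Nat.abs_cast]
      have h4 : |s / ((N + 1 : ℕ) : ℝ)| ≤ r := by
        rw [h3]
        exact (div_le_self (abs_nonneg s) hN1).trans hs
      have h5 := mem_ball_iff_norm.1 hx
      have h6 := hL (x + ((s / ((N + 1 : ℕ) : ℝ) : ℝ) : ℂ) * w) (by
        rw [mem_closedBall_iff_norm]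
        have : x + ((s / ((N + 1 : ℕ) : ℝ) : ℝ) : ℂ) * w - x₀ =
            (x - x₀) + ((s / ((N + 1 : ℕ) : ℝ) : ℝ) : ℂ) * w := by ring
        rw [this]
        refine (norm_add_le _ _).trans ?_
        rw [hnw]
        linarith) x (by
        rw [mem_closedBall_iff_norm]
        linarith)
      rw [add_sub_cancel_left, hnw, h3] at h6
      have h7 := mul_le_mul_of_nonneg_left h6 hN.le
      refine h7.trans (le_of_eq ?_)
      field_simp
    · rw [setLIntegral_const]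
      exact ENNReal.mul_ne_top ENNReal.ofReal_ne_top measure_ball_lt_top.ne
    · filter_upwards [hD] with x hx
      have h3 : Tendsto (fun N : ℕ => s / ((N + 1 : ℕ) : ℝ)) atTop (𝓝[≠] 0) := by
        rw [tendsto_nhdsWithin_iff]
        refine ⟨?_, Eventually.of_forall fun N => ?_⟩
        · have h4 : Tendsto (fun N : ℕ => ((N + 1 : ℕ) : ℝ)) atTop atTop :=
            tendsto_natCast_atTop_atTop.comp (tendsto_add_atTop_nat 1)
          exact h4.const_div_atTop s
        · exact div_ne_zero hs0 (by exact_mod_cast Nat.succ_ne_zero N)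
      have h4 := (hasDerivAt_iff_tendsto_slope_zero.1 hx).comp h3
      have h5 : Tendsto (fun N : ℕ => |s| * |(s / ((N + 1 : ℕ) : ℝ))⁻¹ •
          (F (x + ((0 + s / ((N + 1 : ℕ) : ℝ) : ℝ) : ℂ) * w) - F (x + ((0 : ℝ) : ℂ) * w))|) atTop
          (𝓝 (|s| * |(0 : ℝ)|)) := (h4.abs).const_mul _
      rw [abs_zero, mul_zero] at h5
      have h6 := ENNReal.tendsto_ofReal h5
      rw [ENNReal.ofReal_zero] at h6
      refine h6.congr fun N => ?_
      rw [hsc]
      congr 1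
      have hN : (0 : ℝ) < ((N + 1 : ℕ) : ℝ) := by exact_mod_cast Nat.succ_pos N
      rw [zero_add, Complex.ofReal_zero, zero_mul, add_zero, smul_eq_mul, abs_mul, abs_inv,
        abs_div, Nat.abs_cast]
      have hs1 : |s| ≠ 0 := abs_ne_zero.2 hs0
      field_simp
  have h3 : ∫⁻ x in ball x₀ r, ‖F (x + s * w) - F x‖ₑ = 0 :=
    le_antisymm (ge_of_tendsto' h2 h1) zero_le
  rw [lintegral_eq_zero_iff (hmg s)] at h3
  have h4 : (fun x : ℂ => F (x + s * w)) =ᵐ[volume.restrict (ball x₀ r)] F := by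
    filter_upwards [h3] with x hx
    simp only [Pi.zero_apply, enorm_eq_zero, sub_eq_zero] at hx
    exact hx
  have hlip : LipschitzOnWith (Real.toNNReal C) F (closedBall x₀ (3 * r)) := by
    refine LipschitzOnWith.of_dist_le_mul fun x hx y hy => ?_
    rw [Real.dist_eq, dist_eq_norm, Real.coe_toNNReal']
    exact (hL x hx y hy).trans (mul_le_mul_of_nonneg_right (le_max_left _ _) (norm_nonneg _))
  have hsub : ball x₀ r ⊆ closedBall x₀ (3 * r) :=
    ball_subset_closedBall.trans (closedBall_subset_closedBall (by linarith))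
  intro x hx
  refine Measure.eqOn_open_of_ae_eq h4 isOpen_ball ?_ (hlip.continuousOn.mono hsub) hx
  refine hlip.continuousOn.comp (by fun_prop) fun y hy => ?_
  rw [mem_closedBall_iff_norm]
  have h5 := mem_ball_iff_norm.1 hy
  have : y + s * w - x₀ = (y - x₀) + s * w := by ring
  rw [this]
  refine (norm_add_le _ _).trans ?_
  rw [hnw]
  linarith

/-! ### the table -/

lemma par {f : ℂ × Dir → ℝ} (hinv : FlowInvariant T f) {W : Set ℂ} (hW : Convex ℝ W)
    (hWU : W ⊆ T.U) {x : ℂ} {θ : Dir} {s : ℝ} (hx : x ∈ W) (hy : x + s * e θ ∈ W) :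
    f (x + s * e θ, θ) = f (x, θ) := by
  have key : ∀ (x : ℂ) (s : ℝ), 0 < s → x ∈ W → x + s * e θ ∈ W →
      f (x + s * e θ, θ) = f (x, θ) := by
    intro x s hs hx hy
    refine hinv (x, θ) s _ (Or.inl ⟨hs, fun r h0 h1 => hWU ?_, rfl⟩)
    have h2 := hW hx hy (a := 1 - r / s) (b := r / s)
      (by rw [sub_nonneg, div_le_one hs]; exact h1) (by positivity) (by ring)
    convert h2 using 1
    simp only [Complex.real_smul]
    have h3 : (s : ℂ) ≠ 0 := by exact_mod_cast hs.ne'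
    push_cast
    field_simp
    ring
  rcases lt_trichotomy s 0 with h | h | h
  · have h1 : x + s * e θ + ((-s : ℝ) : ℂ) * e θ = x := by push_cast; ring
    have := key (x + s * e θ) (-s) (by linarith) hy (by rw [h1]; exact hx)
    rw [h1] at this
    exact this.symm
  · subst h; simp
  · exact key x s h hx hy

/-- for a good direction the function is locally constant -/
lemma loc {f : ℂ × Dir → ℝ} (hf : Measurable f) (hinv : FlowInvariant T f) {C : Dir → ℝ}
    (hL : ∀ (θ : Dir) (x y : ℂ), segment ℝ x y ⊆ T.U → |f (x, θ) - f (y, θ)| ≤ C θ * ‖x - y‖)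
    {θ : Dir} (hD : ∀ᵐ x ∂(volume.restrict T.U),
      HasDerivAt (fun s : ℝ => f (x + s * (Complex.I * e θ), θ)) 0 0)
    {x₀ : ℂ} (hx₀ : x₀ ∈ T.U) :
    ∃ r : ℝ, 0 < r ∧ ball x₀ r ⊆ T.U ∧ ∀ x ∈ ball x₀ r, f (x, θ) = f (x₀, θ) := by
  obtain ⟨ε, hε, hball⟩ := Metric.isOpen_iff.1 T.isOpen x₀ hx₀
  set r := ε / 4 with hrdef
  have hr0 : 0 < r := by positivity
  have hr : closedBall x₀ (3 * r) ⊆ T.U := (closedBall_subset_ball (by linarith)).trans hball
  have hF : Measurable fun x : ℂ => f (x, θ) := hf.comp (by fun_prop)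
  have hw : ‖Complex.I * e θ‖ = 1 := by rw [norm_mul, Complex.norm_I, norm_e, one_mul]
  have h1 : ∀ x ∈ closedBall x₀ (3 * r), ∀ y ∈ closedBall x₀ (3 * r),
      |f (x, θ) - f (y, θ)| ≤ C θ * ‖x - y‖ := fun x hx y hy =>
    hL θ x y (((convex_closedBall x₀ (3 * r)).segment_subset hx hy).trans hr)
  have hD2 : ∀ᵐ x ∂(volume.restrict (ball x₀ (2 * r))),
      HasDerivAt (fun s : ℝ => f (x + s * (Complex.I * e θ), θ)) 0 0 :=
    ae_restrict_of_ae_restrict_of_subset ((ball_subset_closedBall.trans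
      (closedBall_subset_closedBall (by linarith))).trans hr) hD
  have h2 := fun (s : ℝ) (hs : |s| ≤ r) =>
    perp (F := fun x : ℂ => f (x, θ)) hF hr0 hw h1 hD2 hs
  refine ⟨r, hr0, (ball_subset_closedBall.trans (closedBall_subset_closedBall (by linarith))).trans
    hr, fun x hx => ?_⟩
  set ζ : ℂ := (x - x₀) / e θ with hζ
  have hx1 : x = x₀ + (ζ.im : ℂ) * (Complex.I * e θ) + (ζ.re : ℂ) * e θ := by
    have h3 : ζ * e θ = x - x₀ := by rw [hζ]; field_simp [e_ne_zero θ]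
    have h4 : x = x₀ + ζ * e θ := by rw [h3]; ring
    conv_lhs => rw [h4, ← Complex.re_add_im ζ]
    ring
  have hζn : ‖ζ‖ < r := by
    rw [hζ, norm_div, norm_e, div_one]
    exact mem_ball_iff_norm.1 hx
  have h3 := h2 ζ.im ((Complex.abs_im_le_norm ζ).trans hζn.le) x₀ (mem_ball_self hr0)
  rw [← h3]
  have h4 : x₀ + (ζ.im : ℂ) * (Complex.I * e θ) ∈ closedBall x₀ (3 * r) := by
    rw [mem_closedBall_iff_norm, add_sub_cancel_left, norm_mul, hw, mul_one, Complex.norm_real,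
      Real.norm_eq_abs]
    have := (Complex.abs_im_le_norm ζ).trans hζn.le
    linarith
  have h5 : x₀ + (ζ.im : ℂ) * (Complex.I * e θ) + (ζ.re : ℂ) * e θ ∈ closedBall x₀ (3 * r) := by
    rw [← hx1]
    exact (ball_subset_closedBall.trans (closedBall_subset_closedBall (by linarith))) hx
  have h6 := par hinv (convex_closedBall x₀ (3 * r)) hr h4 h5
  rw [← hx1] at h6
  exact h6

/-- for a good direction the function is constant -/
lemma glob {f : ℂ × Dir → ℝ} (hf : Measurable f) (hinv : FlowInvariant T f) {C : Dir → ℝ}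
    (hL : ∀ (θ : Dir) (x y : ℂ), segment ℝ x y ⊆ T.U → |f (x, θ) - f (y, θ)| ≤ C θ * ‖x - y‖)
    {θ : Dir} (hD : ∀ᵐ x ∂(volume.restrict T.U),
      HasDerivAt (fun s : ℝ => f (x + s * (Complex.I * e θ), θ)) 0 0)
    {x y : ℂ} (hx : x ∈ T.U) (hy : y ∈ T.U) : f (x, θ) = f (y, θ) := by
  refine T.conn.isPreconnected.induction₂' (fun x y => f (x, θ) = f (y, θ)) ?_ ?_ hx hy
  · intro x hx
    obtain ⟨r, hr, hrU, hc⟩ := loc hf hinv hL hD hx
    have h1 : ∀ᶠ y in 𝓝[T.U] x, y ∈ ball x r :=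
      nhdsWithin_le_nhds (isOpen_ball.mem_nhds (mem_ball_self hr))
    filter_upwards [h1] with y h1
    exact ⟨(hc y h1).symm, hc y h1⟩
  · intro x y z _ _ _ h1 h2
    exact h1.trans h2

/-- reflections -/
lemma refl_ {f : ℂ × Dir → ℝ} (hinv : FlowInvariant T f) {c : Dir → ℝ}
    (hae : ∀ᵐ θ : Dir, ∀ x ∈ T.U, f (x, θ) = c θ) (i : T.ι) :
    ∀ᵐ θ : Dir, c (T.rd i θ) = c θ := by
  obtain ⟨p, hp, hpV⟩ := T.exists_nonvertex i
  obtain ⟨ρ, N⟩ := T.exists_nice i hp hpV
  have hρ := N.pos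
  have hpf : p ∈ frontier T.U := by rw [T.front]; exact mem_iUnion.2 ⟨i, hp⟩
  obtain ⟨y₀, hy₀, hy₀U⟩ := mem_closure_iff_nhds.1 hpf.1 (ball p ρ)
    (isOpen_ball.mem_nhds (mem_ball_self hρ))
  have hh : T.h i y₀ ≠ 0 := fun h0 => N.notU hy₀ h0 hy₀U
  set σ := T.h i y₀ with hσ
  have hhalf := N.half hy₀ (mul_self_pos.2 hh) hy₀U
  rw [← hσ] at hhalf
  set t := ρ / 2 with ht
  have ht0 : 0 < t := by positivity
  -- every inward direction occurs
  have hmem : ∀ θ : Dir, σ * T.h' i (e θ) < 0 → ∃ x y : ℂ, Step T [i] (x, θ) t (y, T.rd i θ) := by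
    intro θ hθ
    have e1 : T.h i (p - ((t / 2 : ℝ) : ℂ) * e θ) = -(t / 2) * T.h' i (e θ) := by
      have h1 : p - ((t / 2 : ℝ) : ℂ) * e θ = p + ((-(t / 2) : ℝ) : ℂ) * e θ := by
        push_cast; ring
      rw [h1, T.h_add, N.hp, zero_add]
    have e2 : p - ((t / 2 : ℝ) : ℂ) * e θ + t * e θ = p + ((t / 2 : ℝ) : ℂ) * e θ := by
      push_cast; ring
    have e3 : T.h i (p + ((t / 2 : ℝ) : ℂ) * e θ) = (t / 2) * T.h' i (e θ) := by
      rw [T.h_add, N.hp, zero_add]
    have b1 : p - ((t / 2 : ℝ) : ℂ) * e θ ∈ ball p ρ := by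
      rw [mem_ball_iff_norm, sub_sub_cancel_left, norm_neg, norm_mul, norm_e, Complex.norm_real,
        Real.norm_eq_abs, abs_of_pos (by positivity)]
      linarith
    have b2 : p + ((t / 2 : ℝ) : ℂ) * e θ ∈ ball p ρ := by
      rw [mem_ball_iff_norm, add_sub_cancel_left, norm_mul, norm_e, Complex.norm_real,
        Real.norm_eq_abs, abs_of_pos (by positivity)]
      linarith
    have s1 : 0 < σ * T.h i (p - ((t / 2 : ℝ) : ℂ) * e θ) := by
      rw [e1]; nlinarith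
    have s2 : σ * T.h i (p - ((t / 2 : ℝ) : ℂ) * e θ + t * e θ) < 0 := by
      rw [e2, e3]; nlinarith
    exact ⟨_, _, Step.bo (T := T) _ θ t ht0 i p ρ σ N b1 (hhalf _ b1 s1) s1 (by rw [e2]; exact b2)
      s2⟩
  have hae2 : ∀ᵐ θ : Dir, ∀ x ∈ T.U, f (x, T.rd i θ) = c (T.rd i θ) :=
    (mp_rd (T := T) i).quasiMeasurePreserving.ae hae
  have hae7 : ∀ᵐ θ : Dir, θ ∉ {θ : Dir | T.h' i (e θ) = 0} :=
    measure_eq_zero_iff_ae_notMem.1 ((finite_tangent T i).measure_zero _)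
  filter_upwards [hae, hae2, hae7] with θ h1 h2 h3
  rcases lt_trichotomy (σ * T.h' i (e θ)) 0 with h | h | h
  · obtain ⟨x, y, hxy⟩ := hmem θ h
    have h4 := Step.memU hxy
    have h5 := hinv.step hxy
    rw [h1 x h4.1, h2 y h4.2] at h5
    exact h5
  · exact absurd ((mul_eq_zero.1 h).resolve_left hh) h3
  · obtain ⟨x, y, hxy⟩ := hmem (T.rd i θ) (by rw [T.h'_rd]; linarith)
    have h4 := Step.memU hxy
    have h5 := hinv.step hxy
    rw [rd_rd] at h5 h4
    rw [h2 x h4.1, h1 y h4.2] at h5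
    exact h5.symm

/-- piece E -/
theorem pieceE : H87.BP.PieceE := by
  intro T i j hij f hf hinv C _ hL v hv hD hv0
  obtain ⟨x₀, hx₀⟩ := T.conn.nonempty
  -- almost every direction is good
  have hv1 : ∀ᵐ a ∂((volume.restrict T.U).prod (volume : Measure Dir)), v a = 0 := by
    have h1 := Measure.prod_restrict (μ := (volume : Measure ℂ)) (ν := (volume : Measure Dir))
      T.U univ
    rw [Measure.restrict_univ] at h1
    rw [h1]
    exact hv0
  have hm : MeasurableSet {z : ℂ × Dir | v z = 0} := measurableSet_eq_fun hv measurable_const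
  have hv2 : ∀ᵐ θ : Dir, ∀ᵐ x ∂(volume.restrict T.U), v (x, θ) = 0 := by
    rw [← Measure.ae_ae_comm hm]
    exact Measure.ae_ae_of_ae_prod hv1
  have hgood : ∀ᵐ θ : Dir, ∀ x ∈ T.U, f (x, θ) = f (x₀, θ) := by
    filter_upwards [hv2] with θ hθ x hx
    refine glob hf hinv hL ?_ hx hx₀
    filter_upwards [hD θ, hθ] with x h1 h2
    rw [h2] at h1
    exact h1
  set c : Dir → ℝ := fun θ => f (x₀, θ) with hcdef
  have hc : Measurable c := hf.comp (by fun_prop)
  have hi := refl_ (c := c) hinv hgood i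
  have hj := refl_ (c := c) hinv hgood j
  set β : Dir := ((2 * (Complex.arg (T.d i) - Complex.arg (T.d j)) : ℝ) : Dir) with hβ
  have hrot : ∀ θ : Dir, T.rd i (T.rd j θ) = θ + β := by
    intro θ
    simp only [Table.rd, hβ]
    rw [mul_sub, AddCircle.coe_sub]
    abel
  have hcomp : c ∘ (fun θ => θ + β) =ᵐ[volume] c := by
    have h1 := (mp_rd (T := T) j).quasiMeasurePreserving.ae hi
    filter_upwards [h1, hj] with θ a1 a2
    simp only [Function.comp]
    rw [← hrot, a1, a2]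
  have herg : Ergodic (fun θ : Dir => θ + β) volume :=
    AddCircle.ergodic_add_right.2 (irr_order hij)
  obtain ⟨k, hk⟩ := herg.ae_eq_const_of_ae_eq_comp_ae hc.aestronglyMeasurable hcomp
  refine ⟨k, ?_⟩
  have h3 : ∀ᵐ θ : Dir, ∀ x ∈ T.U, f (x, θ) = k := by
    filter_upwards [hgood, hk] with θ h1 h2 x hx
    rw [h1 x hx]
    exact h2
  have h4 : volume {θ : Dir | ¬ ∀ x ∈ T.U, f (x, θ) = k} = 0 :=
    measure_eq_zero_iff_ae_notMem.2 (by
      filter_upwards [h3] with θ hθ hn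
      exact hn hθ)
  have h5 : volume ((univ : Set ℂ) ×ˢ {θ : Dir | ¬ ∀ x ∈ T.U, f (x, θ) = k}) = 0 := by
    rw [Measure.volume_eq_prod, Measure.prod_prod, h4, mul_zero]
  rw [ae_restrict_iff' (T.isOpen.measurableSet.prod MeasurableSet.univ)]
  filter_upwards [measure_eq_zero_iff_ae_notMem.1 h5] with a ha hb
  by_contra hn
  exact ha ⟨mem_univ _, fun h => hn (h a.1 hb.1)⟩

end H82.BP
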